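import Pool.Agent.Helper7.OV.Goals2

/-!
# Project OV (MP_57df85_nt), packet SQR
-/

set_option autoImplicit false

open Finset

namespace Pool.Agent.Helper78.OV.SQR

open Pool.Agent.Helper7.OV

theorem be0 : be 0 = 1 := by simp [be]

theorem al0 : al 0 = 1 := by simp [al]

theorem beS (n : ℕ) : 2 * ((n : ℚ) + 1) * be (n + 1) = (2 * n + 1) * be n := by
  have h := Nat.succ_mul_centralBinom_succ n
  have h' : ((n : ℚ) + 1) * (Nat.centralBinom (n + 1) : ℚ) = 2 * (2 * n + 1) * Nat.centralBinom n := by
    exact_mod_cast h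
  unfold be
  rw [pow_succ]
  field_simp
  linear_combination 2 * h'

theorem be_nonneg (n : ℕ) : 0 ≤ be n := by
  unfold be
  positivity

theorem be_pos (n : ℕ) : 0 < be n := by
  unfold be
  have := Nat.centralBinom_pos n
  positivity

theorem be_anti (n : ℕ) : be (n + 1) ≤ be n := by
  have h := beS n
  have h0 := be_nonneg n
  have h1 := be_nonneg (n + 1)
  have hn : (0 : ℚ) ≤ n := Nat.cast_nonneg n
  nlinarith

theorem be_le_one (n : ℕ) : be n ≤ 1 := by
  induction n with
  | zero => rw [be0]
  | succ n ih => exact (be_anti n).trans ih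

theorem be_le_half (n : ℕ) : be (n + 1) ≤ 1 / 2 := by
  induction n with
  | zero =>
    have := beS 0
    rw [be0] at this
    push_cast at this
    linarith
  | succ n ih => exact (be_anti (n + 1)).trans ih

theorem alS (n : ℕ) : al (n + 1) = be (n + 1) - be n := by
  have h := beS n
  have h1 : al (n + 1) = be (n + 1) / (1 - 2 * ((n : ℚ) + 1)) := by
    unfold al be
    push_cast
    rw [div_div]
  have h2 : (1 - 2 * ((n : ℚ) + 1)) ≠ 0 := by
    have hn : (0 : ℚ) ≤ n := Nat.cast_nonneg n
    intro h3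
    linarith
  rw [h1, div_eq_iff h2]
  linear_combination h

theorem be_sq (n : ℕ) : ∑ z ∈ antidiagonal n, be z.1 * be z.2 = 1 := by
  induction n with
  | zero => simp [be0]
  | succ n ih =>
    -- the sum of `2 i be i be j`
    have sym (m : ℕ) : ∑ z ∈ antidiagonal m, 2 * (z.1 : ℚ) * (be z.1 * be z.2) =
        m * ∑ z ∈ antidiagonal m, be z.1 * be z.2 := by
      have h1 : ∑ z ∈ antidiagonal m, (z.1 : ℚ) * (be z.1 * be z.2) =
          ∑ z ∈ antidiagonal m, (z.2 : ℚ) * (be z.1 * be z.2) := by
        rw [← Finset.Nat.sum_antidiagonal_swap]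
        refine sum_congr rfl fun z _ => ?_
        simp only [Prod.fst_swap, Prod.snd_swap]
        ring
      have h2 : ∑ z ∈ antidiagonal m, ((z.1 : ℚ) + z.2) * (be z.1 * be z.2) =
          m * ∑ z ∈ antidiagonal m, be z.1 * be z.2 := by
        rw [mul_sum]
        refine sum_congr rfl fun z hz => ?_
        have : (z.1 : ℚ) + z.2 = m := by exact_mod_cast mem_antidiagonal.1 hz
        rw [this]
      rw [← h2]
      simp only [add_mul, sum_add_distrib]
      rw [← h1, ← sum_add_distrib]
      refine sum_congr rfl fun z _ => ?_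
      ring
    have h3 := sym (n + 1)
    rw [Finset.Nat.sum_antidiagonal_succ] at h3
    have h4 : ∑ z ∈ antidiagonal n, 2 * ((z.1 + 1 : ℕ) : ℚ) * (be (z.1 + 1) * be z.2) = n + 1 := by
      have h5 : ∑ z ∈ antidiagonal n, 2 * ((z.1 + 1 : ℕ) : ℚ) * (be (z.1 + 1) * be z.2) =
          ∑ z ∈ antidiagonal n, 2 * (z.1 : ℚ) * (be z.1 * be z.2) +
            ∑ z ∈ antidiagonal n, be z.1 * be z.2 := by
        rw [← sum_add_distrib]
        refine sum_congr rfl fun z _ => ?_
        have := beS z.1
        push_cast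
        linear_combination be z.2 * this
      rw [h5, sym n, ih]
      ring
    rw [h4] at h3
    have hn : ((n : ℚ) + 1) ≠ 0 := by positivity
    refine mul_left_cancel₀ hn ?_
    push_cast at h3
    linear_combination -h3

theorem al_series : (PowerSeries.mk al : PowerSeries ℚ) = (1 - PowerSeries.X) * PowerSeries.mk be := by
  ext n
  rw [sub_mul, one_mul, map_sub, PowerSeries.coeff_mk, PowerSeries.coeff_mk]
  cases n with
  | zero => simp [al0, be0]
  | succ n => rw [PowerSeries.coeff_succ_X_mul, PowerSeries.coeff_mk, alS]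

theorem be_series : (PowerSeries.mk be : PowerSeries ℚ) * PowerSeries.mk be = PowerSeries.mk 1 := by
  ext n
  rw [PowerSeries.coeff_mul, PowerSeries.coeff_mk]
  simp only [PowerSeries.coeff_mk]
  rw [be_sq, Pi.one_apply]

theorem al_sq (n : ℕ) : ∑ z ∈ antidiagonal n, al z.1 * al z.2 =
    if n = 0 then 1 else if n = 1 then -1 else 0 := by
  have h : (PowerSeries.mk al : PowerSeries ℚ) * PowerSeries.mk al = 1 - PowerSeries.X := by
    have h1 : (PowerSeries.mk 1 : PowerSeries ℚ) * (1 - PowerSeries.X) = 1 :=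
      PowerSeries.mk_one_mul_one_sub_eq_one ℚ
    rw [al_series]
    have h2 := be_series
    linear_combination (1 - PowerSeries.X) ^ 2 * h2 + (1 - PowerSeries.X) * h1
  have h2 := congrArg (PowerSeries.coeff n) h
  rw [PowerSeries.coeff_mul] at h2
  simp only [PowerSeries.coeff_mk] at h2
  rw [h2, map_sub, PowerSeries.coeff_one, PowerSeries.coeff_X]
  split_ifs with h3 h4 h4
  · omega
  · ring
  · ring
  · ring

theorem t : S_SQR := by
  have hal (i : ℕ) (hi : 1 ≤ i) : al i < 0 ∧ |al i| ≤ 1 / 2 := by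
    obtain ⟨n, rfl⟩ : ∃ n, i = n + 1 := ⟨i - 1, by omega⟩
    have h1 : al (n + 1) = -(be (n + 1) / (2 * n + 1)) := by
      unfold al be
      have h2 : (1 - 2 * (((n + 1 : ℕ) : ℚ))) = -(2 * n + 1) := by push_cast; ring
      rw [h2, div_div, mul_neg, div_neg]
    have h3 := be_pos (n + 1)
    have h4 : 0 < be (n + 1) / (2 * n + 1) := by positivity
    have h5 : be (n + 1) / (2 * n + 1) ≤ be (n + 1) :=
      div_le_self h3.le (by linarith [(Nat.cast_nonneg n : (0 : ℚ) ≤ n)])
    refine ⟨by rw [h1]; linarith, ?_⟩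
    rw [h1, abs_neg, abs_of_pos h4]
    exact h5.trans (be_le_half n)
  refine ⟨al_sq, be_sq, ⟨al0, be0⟩, fun i => ⟨?_, be_nonneg i, be_le_one i⟩, hal, fun i => ?_,
    fun i => ?_⟩
  · rcases Nat.eq_zero_or_pos i with rfl | hi
    · rw [al0]; norm_num
    · linarith [(hal i hi).2]
  · cases i with
    | zero => exact ⟨1, by rw [al0]; norm_num⟩
    | succ n =>
      refine ⟨-(2 * (catalan n : ℤ)), ?_⟩
      have h := Nat.succ_mul_centralBinom_succ n
      have h' : ((n : ℚ) + 1) * (Nat.centralBinom (n + 1) : ℚ) =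
          2 * (2 * n + 1) * Nat.centralBinom n := by
        exact_mod_cast h
      have hc : ((n : ℚ) + 1) * catalan n = Nat.centralBinom n := by
        exact_mod_cast succ_mul_catalan_eq_centralBinom n
      have hn : ((n : ℚ) + 1) ≠ 0 := by positivity
      have hn' : (2 * (n : ℚ) + 1) ≠ 0 := by positivity
      have h2 : (1 - 2 * (((n + 1 : ℕ) : ℚ))) = -(2 * n + 1) := by push_cast; ring
      have h3 : (Nat.centralBinom (n + 1) : ℚ) = 2 * (2 * n + 1) * catalan n := by
        refine mul_left_cancel₀ hn ?_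
        rw [h', ← hc]
        ring
      unfold al
      rw [h2, h3]
      push_cast
      field_simp
  · refine ⟨(Nat.centralBinom i : ℤ), ?_⟩
    unfold be
    push_cast
    field_simp

end Pool.Agent.Helper78.OV.SQR
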