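import Pool.Agent.Helper7.OV.Goals2

/-!
# Project OV (MP_57df85_nt), packet VQ
-/

set_option autoImplicit false

open Finset

namespace Pool.Agent.Helper78.OV.VQ

open Pool.Agent.Helper7.OV
open scoped Polynomial

/-! ### Congruences of rational numbers -/

/-- `x ≡ 0` modulo `q ^ T` -/
def Sm (q : ℤ) (T : ℕ) (x : ℚ) : Prop := ∃ m n : ℤ, ¬ q ∣ m ∧ x * m = (q : ℚ) ^ T * n

section Sm

variable {q : ℤ} {S T : ℕ} {x y : ℚ}

theorem Sm.zero (hq : Prime q) : Sm q T 0 :=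
  ⟨1, 0, fun h => hq.not_unit (isUnit_of_dvd_one h), by simp⟩

theorem Sm.add (hq : Prime q) (hx : Sm q T x) (hy : Sm q T y) : Sm q T (x + y) := by
  obtain ⟨m, n, h1, h2⟩ := hx
  obtain ⟨m', n', h1', h2'⟩ := hy
  refine ⟨m * m', n * m' + n' * m, hq.not_dvd_mul h1 h1', ?_⟩
  push_cast
  linear_combination (m' : ℚ) * h2 + (m : ℚ) * h2'

theorem Sm.mul (hq : Prime q) (hx : Sm q S x) (hy : Sm q T y) : Sm q (S + T) (x * y) := by
  obtain ⟨m, n, h1, h2⟩ := hx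
  obtain ⟨m', n', h1', h2'⟩ := hy
  refine ⟨m * m', n * n', hq.not_dvd_mul h1 h1', ?_⟩
  push_cast
  rw [pow_add]
  linear_combination (y * m') * h2 + ((q : ℚ) ^ S * n) * h2'

theorem Sm.int (hq : Prime q) (n : ℤ) : Sm q 0 n :=
  ⟨1, n, fun h => hq.not_unit (isUnit_of_dvd_one h), by simp⟩

theorem Sm.mono (hx : Sm q T x) (h : S ≤ T) : Sm q S x := by
  obtain ⟨m, n, h1, h2⟩ := hx
  refine ⟨m, q ^ (T - S) * n, h1, ?_⟩
  rw [h2]
  push_cast
  rw [← mul_assoc, ← pow_add, Nat.add_sub_cancel' h]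

theorem Sm.qpow (hq : Prime q) : Sm q T ((q : ℚ) ^ T) :=
  ⟨1, 1, fun h => hq.not_unit (isUnit_of_dvd_one h), by simp⟩

theorem Sm.neg (hx : Sm q T x) : Sm q T (-x) := by
  obtain ⟨m, n, h1, h2⟩ := hx
  refine ⟨m, -n, h1, ?_⟩
  push_cast
  linear_combination -h2

theorem Sm.sub (hq : Prime q) (hx : Sm q T x) (hy : Sm q T y) : Sm q T (x - y) := by
  rw [sub_eq_add_neg]
  exact Sm.add hq hx (Sm.neg hy)

theorem Sm.mul0 (hq : Prime q) (hx : Sm q 0 x) (hy : Sm q T y) : Sm q T (x * y) := by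
  have := Sm.mul hq hx hy
  rwa [zero_add] at this

theorem Sm.sum {ι : Type*} (hq : Prime q) (s : Finset ι) (f : ι → ℚ) (h : ∀ i ∈ s, Sm q T (f i)) :
    Sm q T (∑ i ∈ s, f i) := by
  classical
  induction s using Finset.induction_on with
  | empty => exact Sm.zero hq
  | insert a s ha ih =>
    rw [sum_insert ha]
    exact Sm.add hq (h a (mem_insert_self a s)) (ih fun i hi => h i (mem_insert_of_mem hi))

theorem Sm.pow (hq : Prime q) (hx : Sm q 1 x) (n : ℕ) : Sm q n (x ^ n) := by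
  induction n with
  | zero =>
    rw [pow_zero]
    exact_mod_cast Sm.int hq 1
  | succ n ih =>
    rw [pow_succ]
    exact Sm.mul hq ih hx

theorem Sm.dvd (hq : Prime q) {n : ℤ} (h : Sm q T n) : q ^ T ∣ n := by
  obtain ⟨m, k, h1, h2⟩ := h
  have h3 : n * m = q ^ T * k := by exact_mod_cast h2
  exact hq.pow_dvd_of_dvd_mul_right T h1 ⟨k, h3⟩

theorem Sm.of_dvd (hq : Prime q) {n : ℤ} (h : q ^ T ∣ n) : Sm q T n := by
  obtain ⟨k, rfl⟩ := h
  refine ⟨1, k, fun h => hq.not_unit (isUnit_of_dvd_one h), ?_⟩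
  push_cast
  ring

theorem Sm.cancel (hq : Prime q) {c : ℤ} (hc : ¬ q ∣ c) (h : Sm q T (x * y))
    (h1 : Sm q 1 (x - c)) : Sm q T y := by
  obtain ⟨m, n, h2, h3⟩ := h1
  obtain ⟨m', n', h2', h3'⟩ := h
  refine ⟨(c * m + q * n) * m', n' * m, ?_, ?_⟩
  · refine hq.not_dvd_mul (fun h4 => ?_) h2'
    exact hq.not_dvd_mul hc h2 ((dvd_add_left (dvd_mul_right q n)).1 h4)
  · push_cast
    rw [pow_one] at h3
    linear_combination (m : ℚ) * h3' - (y * m') * h3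

end Sm

/-! ### Polynomials and series as sums -/

/-- the index set of the monomials -/
noncomputable def IS (F : P2) : Finset (Σ _ : ℕ, ℕ) :=
  (range (F.natDegree + 1)).sigma fun j => range ((F.coeff j).natDegree + 1)

theorem act_eq (F : P2) (m : Ser) (k l : ℤ) :
    act F m k l = ∑ x ∈ IS F, (co F x.2 x.1 : ℚ) * m (k - x.2) (l - x.1) := by
  unfold act IS
  rw [Finset.sum_sigma]

theorem ev_eq (F : P2) (p q : ℤ) :
    ev p q F = ∑ x ∈ IS F, co F x.2 x.1 * (p ^ x.2 * q ^ x.1) := by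
  unfold ev IS co
  rw [Polynomial.evalEval, Polynomial.eval_eq_sum_range (p := F), Polynomial.eval_finset_sum,
    Finset.sum_sigma]
  refine sum_congr rfl fun j _ => ?_
  rw [Polynomial.eval_mul, Polynomial.eval_eq_sum_range, sum_mul]
  refine sum_congr rfl fun i _ => ?_
  simp only [Polynomial.eval_pow, Polynomial.eval_C]
  ring

theorem cf_eq (A : P2) (k : ℤ) (l : ℕ) :
    cf A k l = ∑ x ∈ IS A, (co A x.2 x.1 : ℚ) * (if (x.2 : ℤ) = k ∧ x.1 = l then 1 else 0) := by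
  unfold cf
  rcases lt_or_ge k 0 with hk | hk
  · rw [if_neg (by omega), sum_eq_zero]
    intro x _
    rw [if_neg (by omega), mul_zero]
  · rw [if_pos ⟨hk, by positivity⟩]
    obtain ⟨k', rfl⟩ := Int.eq_ofNat_of_zero_le hk
    rw [sum_eq_single (⟨l, k'⟩ : Σ _ : ℕ, ℕ)]
    · simp
    · rintro ⟨j, i⟩ _ hne
      rw [if_neg, mul_zero]
      rintro ⟨h1, h2⟩
      simp only at h1 h2
      apply hne
      have : i = k' := by exact_mod_cast h1
      rw [this, h2]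
    · intro h
      have h0 : co A k' l = 0 := by
        by_contra hc
        apply h
        unfold co at hc
        unfold IS
        rw [Finset.mem_sigma, Finset.mem_range, Finset.mem_range]
        refine ⟨Nat.lt_succ_of_le (Polynomial.le_natDegree_of_ne_zero fun h0 => ?_),
          Nat.lt_succ_of_le (Polynomial.le_natDegree_of_ne_zero hc)⟩
        rw [h0, Polynomial.coeff_zero] at hc
        exact hc rfl
      simp [h0]

theorem delta (T : ℕ) (M : ℤ) (p q : ℚ) (u : ℤ) (v : ℕ) (h1 : -M ≤ u) (h2 : u ≤ M) :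
    ∑ z ∈ Icc (-M) M ×ˢ range T, (if u = z.1 ∧ v = z.2 then (1 : ℚ) else 0) * (p ^ z.1 * q ^ z.2) =
      if v < T then p ^ u * q ^ v else 0 := by
  split_ifs with h
  · rw [sum_eq_single (u, v)]
    · simp
    · rintro ⟨k, l⟩ _ hne
      rw [if_neg, zero_mul]
      rintro ⟨h3, h4⟩
      exact hne (by rw [h3, h4])
    · intro h3
      exact (h3 (mem_product.2 ⟨mem_Icc.2 ⟨h1, h2⟩, mem_range.2 h⟩)).elim
  · refine sum_eq_zero ?_
    rintro ⟨k, l⟩ hz
    have := mem_range.1 (mem_product.1 hz).2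
    simp only at this
    rw [if_neg, zero_mul]
    rintro ⟨h3, h4⟩
    simp only at h4
    omega

theorem fq_eq (T : ℕ) (k : ℤ) (l : ℕ) (hl : l < T) (u v : ℕ) :
    fq (k - u) (l - v) = ∑ y ∈ range T ×ˢ range T,
      al y.1 * be y.2 * (if (u : ℤ) - y.1 = k ∧ v + y.1 + y.2 = l then 1 else 0) := by
  unfold fq
  split_ifs with h
  · obtain ⟨i, hi⟩ := Int.eq_ofNat_of_zero_le (a := -(k - u)) (by omega)
    obtain ⟨j, hj⟩ := Int.eq_ofNat_of_zero_le (a := k - u + (l - v)) (by omega)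
    have hi' : (-(k - u)).toNat = i := by omega
    have hj' : (k - u + (l - v)).toNat = j := by omega
    rw [hi', hj', sum_eq_single (i, j)]
    · rw [if_pos (by constructor <;> simp only <;> omega), mul_one]
    · rintro ⟨i', j'⟩ _ hne
      rw [if_neg, mul_zero]
      rintro ⟨h3, h4⟩
      simp only at h3 h4
      apply hne
      have h5 : i' = i := by omega
      have h6 : j' = j := by omega
      rw [h5, h6]
    · intro h3
      refine (h3 (mem_product.2 ⟨mem_range.2 ?_, mem_range.2 ?_⟩)).elim <;> simp only <;> omega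
  · symm
    refine sum_eq_zero ?_
    rintro ⟨i, j⟩ _
    rw [if_neg, mul_zero]
    rintro ⟨h3, h4⟩
    simp only at h3 h4
    apply h
    constructor <;> omega

theorem bndu (A : P2) : ∃ N : ℕ, ∀ x ∈ IS A, x.2 ≤ N := by
  refine ⟨(range (A.natDegree + 1)).sup fun j => (A.coeff j).natDegree, fun x hx => ?_⟩
  unfold IS at hx
  rw [Finset.mem_sigma, Finset.mem_range (n := (A.coeff x.1).natDegree + 1)] at hx
  exact (Nat.lt_succ_iff.1 hx.2).trans
    (Finset.le_sup (f := fun j => (A.coeff j).natDegree) hx.1)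

theorem Sm.zpow0 {p q : ℤ} (hq : Prime q) (hp : ¬ q ∣ p) (k : ℤ) : Sm q 0 ((p : ℚ) ^ k) := by
  have hpn (n : ℕ) : ¬ q ∣ p ^ n := fun h => hp (hq.dvd_of_dvd_pow h)
  have hp0 : (p : ℚ) ≠ 0 := by
    intro h
    have : p = 0 := by exact_mod_cast h
    exact hp (this ▸ dvd_zero q)
  rcases le_or_gt 0 k with hk | hk
  · obtain ⟨n, rfl⟩ := Int.eq_ofNat_of_zero_le hk
    rw [zpow_natCast]
    exact_mod_cast Sm.int hq (p ^ n)
  · obtain ⟨n, hn⟩ := Int.eq_ofNat_of_zero_le (a := -k) (by omega)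
    refine ⟨p ^ n, 1, hpn n, ?_⟩
    have : k = -(n : ℤ) := by omega
    rw [this, zpow_neg, zpow_natCast]
    push_cast
    rw [inv_mul_cancel₀ (pow_ne_zero n hp0)]
    ring

theorem prod_trunc {q : ℤ} (hq : Prime q) (al be : ℕ → ℚ) (z : ℚ) (T : ℕ)
    (ha : ∀ i, Sm q 0 (al i)) (hb : ∀ i, Sm q 0 (be i)) (hz : Sm q 1 z) :
    Sm q T ((∑ i ∈ range T, al i * z ^ i) * (∑ j ∈ range T, be j * z ^ j) -
      ∑ n ∈ range T, (∑ y ∈ antidiagonal n, al y.1 * be y.2) * z ^ n) := by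
  have h1 : (∑ i ∈ range T, al i * z ^ i) * (∑ j ∈ range T, be j * z ^ j) =
      ∑ y ∈ range T ×ˢ range T, al y.1 * be y.2 * z ^ (y.1 + y.2) := by
    rw [sum_mul_sum, sum_product]
    refine sum_congr rfl fun i _ => sum_congr rfl fun j _ => ?_
    rw [pow_add]
    ring
  have h2 : ∑ n ∈ range T, (∑ y ∈ antidiagonal n, al y.1 * be y.2) * z ^ n =
      ∑ y ∈ range T ×ˢ range T,
        if y.1 + y.2 < T then al y.1 * be y.2 * z ^ (y.1 + y.2) else 0 := by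
    have h3 : ∀ n ∈ range T, (∑ y ∈ antidiagonal n, al y.1 * be y.2) * z ^ n =
        ∑ y ∈ range T ×ˢ range T,
          if y.1 + y.2 = n then al y.1 * be y.2 * z ^ (y.1 + y.2) else 0 := by
      intro n hn
      rw [mem_range] at hn
      rw [sum_mul, ← sum_filter]
      have h4 : (range T ×ˢ range T).filter (fun y => y.1 + y.2 = n) = antidiagonal n := by
        ext ⟨i, j⟩
        simp only [mem_filter, mem_product, mem_range, HasAntidiagonal.mem_antidiagonal]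
        omega
      rw [h4]
      refine sum_congr rfl fun y hy => ?_
      rw [HasAntidiagonal.mem_antidiagonal.1 hy]
    rw [sum_congr rfl h3, sum_comm]
    refine sum_congr rfl fun y _ => ?_
    rw [sum_ite_eq]
    simp only [mem_range]
  rw [h1, h2, ← sum_sub_distrib]
  refine Sm.sum hq _ _ fun y _ => ?_
  split_ifs with h3
  · rw [sub_self]
    exact Sm.zero hq
  · rw [sub_zero]
    refine Sm.mul0 hq ?_ ((Sm.pow hq hz _).mono (not_lt.1 h3))
    have := Sm.mul hq (ha y.1) (hb y.2)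
    rwa [zero_add] at this

theorem one_mod {q : ℤ} (hq : Prime q) (al : ℕ → ℚ) (z : ℚ) (T : ℕ) (h0 : al 0 = 1)
    (ha : ∀ i, Sm q 0 (al i)) (hz : Sm q 1 z) :
    Sm q 1 ((∑ i ∈ range (T + 1), al i * z ^ i) - 1) := by
  rw [sum_range_succ', h0, pow_zero, mul_one, add_sub_cancel_right]
  refine Sm.sum hq _ _ fun i _ => Sm.mul0 hq (ha _) ((Sm.pow hq hz _).mono (by omega))

theorem sum0 {q : ℤ} (hq : Prime q) (al : ℕ → ℚ) (z : ℚ) (T : ℕ)
    (ha : ∀ i, Sm q 0 (al i)) (hz : Sm q 1 z) :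
    Sm q 0 (∑ i ∈ range T, al i * z ^ i) :=
  Sm.sum hq _ _ fun i _ => Sm.mul0 hq (ha _) ((Sm.pow hq hz _).mono (by omega))

/-- Part (a): `A(P) + B(P) f ≡ 0`. -/
theorem partA {p q : ℤ} (hq : Prime q) (hp : ¬ q ∣ p) (T : ℕ) (A B : P2)
    (ha : ∀ i, Sm q 0 (al i)) (hb : ∀ i, Sm q 0 (be i))
    (hC : Cond 0 1 T (fun k l => cf A k l + act B fq k l)) :
    Sm q T ((ev p q A : ℚ) + ev p q B * ((∑ i ∈ range T, al i * ((q : ℚ) / p) ^ i) *
      (∑ j ∈ range T, be j * (q : ℚ) ^ j))) := by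
  have hp0 : (p : ℚ) ≠ 0 := by
    intro h
    have : p = 0 := by exact_mod_cast h
    exact hp (this ▸ dvd_zero q)
  obtain ⟨NA, hNA⟩ := bndu A
  obtain ⟨NB, hNB⟩ := bndu B
  obtain ⟨M, hM⟩ : ∃ M : ℤ, M = NA + NB + T := ⟨_, rfl⟩
  have key0 : ∑ z ∈ Icc (-M) M ×ˢ range T,
      (cf A z.1 z.2 * ((p : ℚ) ^ z.1 * (q : ℚ) ^ z.2) +
        act B fq z.1 z.2 * ((p : ℚ) ^ z.1 * (q : ℚ) ^ z.2)) = 0 := by
    refine sum_eq_zero fun z hz => ?_
    have h1 := mem_range.1 (mem_product.1 hz).2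
    have h2 := hC z.1 z.2 (by omega)
    simp only at h2
    rw [← add_mul, h2, zero_mul]
  have key1 : ∑ z ∈ Icc (-M) M ×ˢ range T, cf A z.1 z.2 * ((p : ℚ) ^ z.1 * (q : ℚ) ^ z.2) =
      ∑ x ∈ IS A, (co A x.2 x.1 : ℚ) * (if x.1 < T then (p : ℚ) ^ (x.2 : ℤ) * (q : ℚ) ^ x.1 else 0) := by
    simp only [cf_eq, sum_mul]
    rw [sum_comm]
    refine sum_congr rfl fun x hx => ?_
    have h1 := hNA x hx
    rw [← delta T M p q x.2 x.1 (by omega) (by omega), mul_sum]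
    refine sum_congr rfl fun z _ => ?_
    ring
  have key2 : ∑ z ∈ Icc (-M) M ×ˢ range T, act B fq z.1 z.2 * ((p : ℚ) ^ z.1 * (q : ℚ) ^ z.2) =
      ∑ x ∈ IS B, ∑ y ∈ range T ×ˢ range T, (co B x.2 x.1 : ℚ) * (al y.1 * be y.2) *
        (if x.1 + y.1 + y.2 < T then
          (p : ℚ) ^ ((x.2 : ℤ) - y.1) * (q : ℚ) ^ (x.1 + y.1 + y.2) else 0) := by
    simp only [act_eq, sum_mul]
    rw [sum_comm]
    refine sum_congr rfl fun x hx => ?_
    have h1 := hNB x hx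
    have h2 : ∀ z ∈ Icc (-M) M ×ˢ range T, (co B x.2 x.1 : ℚ) * fq (z.1 - x.2) (z.2 - x.1) *
        ((p : ℚ) ^ z.1 * (q : ℚ) ^ z.2) =
        ∑ y ∈ range T ×ˢ range T, (co B x.2 x.1 : ℚ) * (al y.1 * be y.2) *
          ((if (x.2 : ℤ) - y.1 = z.1 ∧ x.1 + y.1 + y.2 = z.2 then 1 else 0) *
            ((p : ℚ) ^ z.1 * (q : ℚ) ^ z.2)) := by
      intro z hz
      rw [fq_eq T z.1 z.2 (mem_range.1 (mem_product.1 hz).2) x.2 x.1, mul_sum, sum_mul]
      refine sum_congr rfl fun y _ => ?_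
      ring
    rw [sum_congr rfl h2, sum_comm]
    refine sum_congr rfl fun y hy => ?_
    have h3 := mem_range.1 (mem_product.1 hy).1
    rw [← mul_sum, delta T M p q _ _ (by omega) (by omega)]
  have evA : (ev p q A : ℚ) = ∑ x ∈ IS A, (co A x.2 x.1 : ℚ) * ((p : ℚ) ^ (x.2 : ℤ) * (q : ℚ) ^ x.1) := by
    rw [ev_eq]
    push_cast
    simp only [zpow_natCast]
  have evB : (ev p q B : ℚ) * ((∑ i ∈ range T, al i * ((q : ℚ) / p) ^ i) *
      (∑ j ∈ range T, be j * (q : ℚ) ^ j)) =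
      ∑ x ∈ IS B, ∑ y ∈ range T ×ˢ range T, (co B x.2 x.1 : ℚ) * (al y.1 * be y.2) *
        ((p : ℚ) ^ ((x.2 : ℤ) - y.1) * (q : ℚ) ^ (x.1 + y.1 + y.2)) := by
    rw [ev_eq, sum_mul_sum, ← sum_product' (f := fun i j =>
      al i * ((q : ℚ) / p) ^ i * (be j * (q : ℚ) ^ j))]
    push_cast
    rw [sum_mul]
    refine sum_congr rfl fun x _ => ?_
    rw [mul_sum]
    refine sum_congr rfl fun y _ => ?_
    rw [zpow_sub₀ hp0, zpow_natCast, zpow_natCast, div_pow, pow_add, pow_add]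
    field_simp
  rw [sum_add_distrib, key1, key2] at key0
  rw [evA, evB, ← sub_zero (_ + _), ← key0]
  rw [add_sub_add_comm, ← sum_sub_distrib, ← sum_sub_distrib]
  refine Sm.add hq (Sm.sum hq _ _ fun x _ => ?_) (Sm.sum hq _ _ fun x _ => ?_)
  · rw [← mul_sub]
    refine Sm.mul0 hq (Sm.int hq _) ?_
    split_ifs with h
    · rw [sub_self]
      exact Sm.zero hq
    · rw [sub_zero]
      exact Sm.mul0 hq (Sm.zpow0 hq hp _) ((Sm.qpow hq).mono (not_lt.1 h))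
  · rw [← sum_sub_distrib]
    refine Sm.sum hq _ _ fun y _ => ?_
    rw [← mul_sub]
    refine Sm.mul0 hq (Sm.mul0 hq (Sm.int hq _) (Sm.mul0 hq (ha _) (hb _))) ?_
    split_ifs with h
    · rw [sub_self]
      exact Sm.zero hq
    · rw [sub_zero]
      exact Sm.mul0 hq (Sm.zpow0 hq hp _) ((Sm.qpow hq).mono (not_lt.1 h))

theorem t : S_VQ := by
  intro hS p q w T A B hq hq3 hp hw hdv hC
  obtain ⟨s1, s2, ⟨al0, be0⟩, -, -, s6, s7⟩ := hS
  rcases Nat.eq_zero_or_pos T with rfl | hT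
  · rw [pow_zero]
    exact one_dvd _
  obtain ⟨T', rfl⟩ : ∃ T', T = T' + 1 := ⟨T - 1, by omega⟩
  have h4 (i : ℕ) : ¬ q ∣ 4 ^ i := by
    intro h
    have h1 : q ∣ 4 := hq.dvd_of_dvd_pow h
    have h2 : q ∣ 2 * 2 := h1
    have h3 : q ∣ 2 := (hq.dvd_or_dvd h2).elim id id
    have := Int.le_of_dvd (by norm_num) h3
    omega
  have ha (i : ℕ) : Sm q 0 (al i) := by
    obtain ⟨n, hn⟩ := s6 i
    refine ⟨4 ^ i, n, h4 i, ?_⟩
    push_cast
    rw [mul_comm, hn, pow_zero, one_mul]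
  have hb (i : ℕ) : Sm q 0 (be i) := by
    obtain ⟨n, hn⟩ := s7 i
    refine ⟨4 ^ i, n, h4 i, ?_⟩
    push_cast
    rw [mul_comm, hn, pow_zero, one_mul]
  have hp0 : (p : ℚ) ≠ 0 := by
    intro h
    have : p = 0 := by exact_mod_cast h
    exact hp (this ▸ dvd_zero q)
  have hu : Sm q 1 ((q : ℚ) / p) := ⟨p, 1, hp, by rw [div_mul_cancel₀ _ hp0]; simp⟩
  have hqq : Sm q 1 (q : ℚ) := by
    have := Sm.qpow (T := 1) hq
    rwa [pow_one] at this
  have hA := partA hq hp (T' + 1) A B ha hb hC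
  obtain ⟨a, hadef⟩ : ∃ a, a = ∑ i ∈ range (T' + 1), al i * ((q : ℚ) / p) ^ i := ⟨_, rfl⟩
  obtain ⟨b, hbdef⟩ : ∃ b, b = ∑ j ∈ range (T' + 1), be j * (q : ℚ) ^ j := ⟨_, rfl⟩
  rw [← hadef, ← hbdef] at hA
  have a0 : Sm q 0 a := hadef ▸ sum0 hq al _ _ ha hu
  have b0 : Sm q 0 b := hbdef ▸ sum0 hq be _ _ hb hqq
  have a1 : Sm q 1 (a - 1) := hadef ▸ one_mod hq al _ _ al0 ha hu
  have b1 : Sm q 1 (b - 1) := hbdef ▸ one_mod hq be _ _ be0 hb hqq
  have asq : Sm q (T' + 1) (a * a - (1 - (q : ℚ) / p)) := by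
    have h1 := prod_trunc hq al al ((q : ℚ) / p) (T' + 1) ha ha hu
    rw [← hadef] at h1
    simp only [s1] at h1
    rcases Nat.eq_zero_or_pos T' with rfl | hT'
    · simp at h1
      have h2 : a * a - (1 - (q : ℚ) / p) = (a * a - 1) + (q : ℚ) / p := by ring
      rw [h2]
      exact Sm.add hq h1 hu
    · obtain ⟨m, rfl⟩ : ∃ m, T' = m + 1 := ⟨T' - 1, by omega⟩
      rw [sum_range_succ', sum_range_succ'] at h1
      simp at h1
      convert h1 using 1
      ring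
  have bsq : Sm q (T' + 1) ((1 - q) * (b * b) - 1) := by
    have h1 := prod_trunc hq be be (q : ℚ) (T' + 1) hb hb hqq
    rw [← hbdef] at h1
    simp only [s2, one_mul] at h1
    have h2 : (1 - q) * (b * b) - 1 = (1 - (q : ℚ)) * (b * b - ∑ n ∈ range (T' + 1), (q : ℚ) ^ n)
        - (q : ℚ) ^ (T' + 1) := by
      have := mul_neg_geom_sum (q : ℚ) (T' + 1)
      linear_combination this
    rw [h2]
    refine Sm.sub hq (Sm.mul0 hq ?_ h1) (Sm.qpow hq)
    exact_mod_cast Sm.int hq (1 - q)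
  have fsq : Sm q (T' + 1) ((1 - q) * (a * b) ^ 2 - (1 - (q : ℚ) / p)) := by
    have h2 : (1 - q) * (a * b) ^ 2 - (1 - (q : ℚ) / p) =
        (a * a) * ((1 - q) * (b * b) - 1) + (a * a - (1 - (q : ℚ) / p)) := by ring
    rw [h2]
    exact Sm.add hq (Sm.mul0 hq (Sm.mul0 hq a0 a0) bsq) asq
  have wsq : Sm q (T' + 1) ((1 - q) * (w : ℚ) ^ 2 - (1 - (q : ℚ) / p)) := by
    have h1 := Sm.of_dvd hq hdv
    have h2 : (1 - q) * (w : ℚ) ^ 2 - (1 - (q : ℚ) / p) =
        (p : ℚ) ^ (-1 : ℤ) * ((p * (1 - q) * w ^ 2 - (p - q) : ℤ) : ℚ) := by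
      rw [zpow_neg_one]
      push_cast
      field_simp
    rw [h2]
    exact Sm.mul0 hq (Sm.zpow0 hq hp _) h1
  have w1 : Sm q 1 ((w : ℚ) - 1) := by
    have := Sm.of_dvd (T := 1) hq (n := w - 1) (by rwa [pow_one])
    exact_mod_cast this
  have f1 : Sm q 1 (a * b - 1) := by
    have h2 : a * b - 1 = b * (a - 1) + (b - 1) := by ring
    rw [h2]
    exact Sm.add hq (Sm.mul0 hq b0 a1) b1
  have wf : Sm q (T' + 1) ((w : ℚ) - a * b) := by
    refine Sm.cancel (c := 2) (x := (1 - q) * (w + a * b)) hq ?_ ?_ ?_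
    · intro h
      have := Int.le_of_dvd (by norm_num) h
      omega
    · have h2 : (1 - q) * (w + a * b) * ((w : ℚ) - a * b) =
          ((1 - q) * (w : ℚ) ^ 2 - (1 - (q : ℚ) / p)) -
            ((1 - q) * (a * b) ^ 2 - (1 - (q : ℚ) / p)) := by ring
      rw [h2]
      exact Sm.sub hq wsq fsq
    · have h2 : (1 - q) * (w + a * b) - ((2 : ℤ) : ℚ) =
          ((w : ℚ) - 1) + (a * b - 1) - (w + a * b) * q := by push_cast; ring
      rw [h2]
      refine Sm.sub hq (Sm.add hq w1 f1) (Sm.mul0 hq (Sm.add hq (Sm.int hq w) ?_) hqq)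
      exact Sm.mul0 hq a0 b0
  apply Sm.dvd hq
  have h5 : ((ev p q A + ev p q B * w : ℤ) : ℚ) =
      ((ev p q A : ℚ) + ev p q B * (a * b)) + ev p q B * ((w : ℚ) - a * b) := by
    push_cast
    ring
  rw [h5]
  exact Sm.add hq hA (Sm.mul0 hq (Sm.int hq _) wf)

end Pool.Agent.Helper78.OV.VQ
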