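import Pool.Agent.Helper7.OV.Goals1

/-!
# Project OV (MP_57df85_nt), packet DIVG
-/

set_option autoImplicit false

open Finset

namespace Pool.Agent.Helper78.OV.DIVG

open Pool.Agent.Helper7.OV
open scoped Polynomial

theorem bnd (A : P2) : ∃ N : ℤ, ∀ i j : ℕ, co A i j ≠ 0 → (i : ℤ) ≤ N ∧ (j : ℤ) ≤ N := by
  refine ⟨((A.natDegree + A.support.sup fun j => (A.coeff j).natDegree : ℕ) : ℤ), fun i j h => ?_⟩
  unfold co at h
  have h1 : A.coeff j ≠ 0 := by
    intro h0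
    rw [h0, Polynomial.coeff_zero] at h
    exact h rfl
  have h2 : j ≤ A.natDegree := Polynomial.le_natDegree_of_ne_zero h1
  have h3 : i ≤ (A.coeff j).natDegree := Polynomial.le_natDegree_of_ne_zero h
  have h4 : (A.coeff j).natDegree ≤ A.support.sup fun j => (A.coeff j).natDegree :=
    Finset.le_sup (f := fun j => (A.coeff j).natDegree) (Polynomial.mem_support_iff.2 h1)
  push_cast
  omega

theorem sup_cf {A : P2} {k l : ℤ} (h : cf A k l ≠ 0) :
    0 ≤ k ∧ 0 ≤ l ∧ co A k.toNat l.toNat ≠ 0 := by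
  unfold cf at h
  split_ifs at h with h1
  · exact ⟨h1.1, h1.2, by exact_mod_cast h⟩
  · exact (h rfl).elim

theorem sup_act {B : P2} {m : Ser} {k l : ℤ} (h : act B m k l ≠ 0) :
    ∃ i j : ℕ, co B i j ≠ 0 ∧ m (k - i) (l - j) ≠ 0 := by
  unfold act at h
  obtain ⟨j, -, h1⟩ := exists_ne_zero_of_sum_ne_zero h
  obtain ⟨i, -, h2⟩ := exists_ne_zero_of_sum_ne_zero h1
  refine ⟨i, j, ?_, right_ne_zero_of_mul h2⟩
  have := left_ne_zero_of_mul h2
  exact_mod_cast this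

theorem sup_fq {k l : ℤ} (h : fq k l ≠ 0) : k ≤ 0 ∧ 0 ≤ k + l := by
  unfold fq at h
  split_ifs at h with h1
  · exact h1
  · exact (h rfl).elim

theorem sup_fp {k l : ℤ} (h : fp k l ≠ 0) : l ≤ 0 ∧ 0 ≤ k + l := by
  unfold fp at h
  split_ifs at h with h1
  · exact h1
  · exact (h rfl).elim

theorem sup_fi {k l : ℤ} (h : fi k l ≠ 0) : k ≤ 0 ∧ l ≤ 0 := by
  unfold fi at h
  split_ifs at h with h1
  · exact h1
  · exact (h rfl).elim

theorem box {P : ℤ × ℤ → Prop} (a b c e : ℤ)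
    (h : ∀ z, P z → a ≤ z.1 ∧ z.1 ≤ b ∧ c ≤ z.2 ∧ z.2 ≤ e) : {z | P z}.Finite := by
  refine (Finset.finite_toSet (Finset.Icc a b ×ˢ Finset.Icc c e)).subset fun z hz => ?_
  obtain ⟨h1, h2, h3, h4⟩ := h z hz
  rw [Finset.mem_coe, Finset.mem_product, Finset.mem_Icc, Finset.mem_Icc]
  exact ⟨⟨h1, h2⟩, h3, h4⟩

theorem ne_add {x y : ℚ} (h : x + y ≠ 0) : x ≠ 0 ∨ y ≠ 0 := by
  by_contra hc
  rw [not_or, not_not, not_not] at hc
  rw [hc.1, hc.2, add_zero] at h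
  exact h rfl

theorem low {s t : ℕ} (ht : 1 ≤ t) {n N k l : ℤ} (hN : 0 ≤ N) (hn : -(t : ℤ) * k + -(s : ℤ) * l ≤ n)
    (hl : l ≤ N) : min 0 (-n - s * N) ≤ k := by
  rcases le_or_gt 0 k with hk | hk
  · exact (min_le_left _ _).trans hk
  · refine (min_le_right _ _).trans ?_
    have h1 : (1 : ℤ) ≤ t := by exact_mod_cast ht
    have h2 : (s : ℤ) * l ≤ s * N := mul_le_mul_of_nonneg_left hl (by positivity)
    nlinarith

theorem t : S_DIVG := by
  intro hD hA s t d S F a ht hs hX hY hG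
  obtain ⟨-, A2, A3, -, A5, A6, -, -, -, -, -, -⟩ := hA
  -- the monomials of `F`
  have mX : ∃ j : ℕ, co F 0 j ≠ 0 := by
    by_contra hc
    push Not at hc
    refine hX (Polynomial.C_dvd_iff_dvd_coeff _ _ |>.2 fun j => ?_)
    exact Polynomial.X_dvd_iff.2 (hc j)
  have mY : ∃ i : ℕ, co F i 0 ≠ 0 := by
    by_contra hc
    push Not at hc
    exact hY (Polynomial.X_dvd_iff.2 (Polynomial.ext fun i => hc i))
  have w01 : ∃ i j : ℕ, co F i j ≠ 0 ∧ (0 : ℤ) * i + 1 * j ≤ 0 := by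
    obtain ⟨i, hi⟩ := mY
    exact ⟨i, 0, hi, by simp⟩
  have w10 : ∃ i j : ℕ, co F i j ≠ 0 ∧ (1 : ℤ) * i + 0 * j ≤ 0 := by
    obtain ⟨j, hj⟩ := mX
    exact ⟨0, j, hj, by simp⟩
  have wts : ∃ i j : ℕ, co F i j ≠ 0 ∧ -(t : ℤ) * i + -(s : ℤ) * j ≤ 0 := by
    obtain ⟨i, hi⟩ := mY
    refine ⟨i, 0, hi, ?_⟩
    have : (0 : ℤ) ≤ t * i := by positivity
    push_cast
    linarith
  -- the bounds
  obtain ⟨N0, hN0⟩ := bnd (a 0)
  obtain ⟨N1, hN1⟩ := bnd (a 1)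
  obtain ⟨N2, hN2⟩ := bnd (a 2)
  obtain ⟨N, hN, l0, l1, l2⟩ : ∃ N : ℤ, 0 ≤ N ∧ N0 ≤ N ∧ N1 ≤ N ∧ N2 ≤ N :=
    ⟨max 0 (max N0 (max N1 N2)), by omega, by omega, by omega, by omega⟩
  have scf (r : Fin 3) (k l : ℤ) (h : cf (a r) k l ≠ 0) : 0 ≤ k ∧ k ≤ N ∧ 0 ≤ l ∧ l ≤ N := by
    obtain ⟨h1, h2, h3⟩ := sup_cf h
    have h4 : (k.toNat : ℤ) ≤ N ∧ (l.toNat : ℤ) ≤ N := by
      fin_cases r
      · have := hN0 _ _ h3
        omega
      · have := hN1 _ _ h3
        omega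
      · have := hN2 _ _ h3
        omega
    omega
  have c1 : Cond 0 1 (2 * t) (fun k l => cf (a 0) k l + act (a 1) fq k l) := by
    refine hD 0 1 (2 * t) F _ w01 (fun n => box (min 0 (-n)) N (-N) (max n N) ?_) ?_
    · rintro ⟨k, l⟩ ⟨h1, h2⟩
      simp only at h1 h2 ⊢
      rcases ne_add h2 with h3 | h3
      · have := scf 0 k l h3
        omega
      · obtain ⟨i, j, h4, h5⟩ := sup_act h3
        have h6 := sup_fq h5
        have h7 := hN1 _ _ h4
        omega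
    · have h := hG.c1
      rw [A2, A6, ← A5]
      exact h
  have c2 : Cond 0 1 t (cf (a 2)) := by
    refine hD 0 1 t F _ w01 (fun n => box 0 N 0 N ?_) ?_
    · rintro ⟨k, l⟩ ⟨h1, h2⟩
      have := scf 2 k l h2
      simp only
      omega
    · rw [A6]
      exact hG.c2
  have c3 : Cond 1 0 (2 * t) (fun k l => cf (a 0) k l + act (a 2) fp k l) := by
    refine hD 1 0 (2 * t) F _ w10 (fun n => box (-N) (max n N) (min 0 (-n)) N ?_) ?_
    · rintro ⟨k, l⟩ ⟨h1, h2⟩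
      simp only at h1 h2 ⊢
      rcases ne_add h2 with h3 | h3
      · have := scf 0 k l h3
        omega
      · obtain ⟨i, j, h4, h5⟩ := sup_act h3
        have h6 := sup_fp h5
        have h7 := hN2 _ _ h4
        omega
    · have h := hG.c3
      rw [A2, A6, ← A5]
      exact h
  have c4 : Cond 1 0 (2 * t - s) (cf (a 1)) := by
    refine hD 1 0 (2 * t - s) F _ w10 (fun n => box 0 N 0 N ?_) ?_
    · rintro ⟨k, l⟩ ⟨h1, h2⟩
      have := scf 1 k l h2
      simp only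
      omega
    · rw [A6]
      exact hG.c4
  have c5 : Cond (-t) (-s) (-S) (cf (a 0)) := by
    refine hD (-t) (-s) (-S) F _ wts (fun n => box 0 N 0 N ?_) ?_
    · rintro ⟨k, l⟩ ⟨h1, h2⟩
      have := scf 0 k l h2
      simp only
      omega
    · rw [A6]
      exact hG.c5
  have c6 : Cond (-t) (-s) (-(S - s * t)) (fun k l => cf (a 2) k l + d * act (a 1) fi k l) := by
    refine hD (-t) (-s) (-(S - s * t)) F _ wts
      (fun n => box (min 0 (-n - s * N)) N (min 0 (-n - t * N)) N ?_) ?_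
    · rintro ⟨k, l⟩ ⟨h1, h2⟩
      simp only at h1 h2 ⊢
      have hkl : k ≤ N ∧ l ≤ N := by
        rcases ne_add h2 with h3 | h3
        · have := scf 2 k l h3
          omega
        · obtain ⟨i, j, h4, h5⟩ := sup_act (right_ne_zero_of_mul h3)
          have h6 := sup_fi h5
          have h7 := hN1 _ _ h4
          omega
      exact ⟨low ht hN h1 hkl.2, hkl.1, low hs hN (by linarith) hkl.1, hkl.2⟩
    · have h := hG.c6
      rw [A2, A3, A6, ← A5]
      exact h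
  have c7 : Cond (-t) (-s) (-(S + s * t)) (cf (a 1)) := by
    refine hD (-t) (-s) (-(S + s * t)) F _ wts (fun n => box 0 N 0 N ?_) ?_
    · rintro ⟨k, l⟩ ⟨h1, h2⟩
      have := scf 1 k l h2
      simp only
      omega
    · rw [A6]
      exact hG.c7
  exact ⟨c1, c2, c3, c4, c5, c6, c7⟩

end Pool.Agent.Helper78.OV.DIVG
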